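import Pool.Agent.MDG.Stmts

/-!
# Degree as the number of elements of the neighbour set
-/

set_option autoImplicit false

open Finset
open Pool.Agent.HEC

namespace Pool.Agent.MDG.H84

theorem cnt_eq_ncard {α : Type} [Fintype α] (p : α → Prop) (S : Set α) (h : ∀ a, p a ↔ a ∈ S) :
    cnt p = S.ncard := by
  classical
  unfold cnt
  have hS : S = ((univ.filter p : Finset α) : Set α) := by
    ext w
    rw [Finset.mem_coe, Finset.mem_filter]
    exact ⟨fun h' => ⟨Finset.mem_univ w, (h w).2 h'⟩, fun h' => (h w).1 h'.2⟩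
  rw [hS, Set.ncard_coe_finset]

theorem dg_eq_ncard {V : Type} [Fintype V] (G : SimpleGraph V) (v : V) :
    dg G v = (G.neighborSet v).ncard :=
  cnt_eq_ncard _ _ fun _ => Iff.rfl

end Pool.Agent.MDG.H84
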