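import Pool.Agent.MDG.StmtsY
import Pool.Agent.Helper84_HEC.FIN

/-!
# FNY: the theorem with independent vertices of small degree
-/

set_option autoImplicit false

open Finset
open Pool.Agent.HEC Pool.Agent.HEC.H84
open Pool.Agent.Helper51_Equitable (IsEquitableProper)

namespace Pool.Agent.MDG.H84

section

variable {V : Type} [Fintype V]

theorem cnt_eq_card {α : Type} [Fintype α] (p : α → Prop) [Fintype {a // p a}] :
    cnt p = Fintype.card {a // p a} := by
  classical
  unfold cnt
  rw [Fintype.card_subtype]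

theorem cnt_false {α : Type} [Fintype α] {p : α → Prop} (h : ∀ a, ¬ p a) : cnt p = 0 := by
  classical
  unfold cnt
  rw [Finset.card_eq_zero]
  apply Finset.eq_empty_of_forall_notMem
  intro a ha
  exact h a (Finset.mem_filter.1 ha).2

/-- the number of `i : Fin n` with a property -/
theorem cnt_fin_lt (n q : ℕ) (h : q ≤ n) : cnt (fun i : Fin n => (i : ℕ) < q) = q := by
  classical
  unfold cnt
  have : (univ.filter fun i : Fin n => (i : ℕ) < q) =
      (univ : Finset (Fin q)).map (Fin.castLEEmb h) := by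
    ext i
    simp only [Finset.mem_filter, Finset.mem_univ, true_and, Finset.mem_map]
    constructor
    · intro hi
      exact ⟨⟨i, hi⟩, by ext; rfl⟩
    · rintro ⟨j, hj⟩
      rw [← hj]
      exact j.2
  have h2 : (univ.filter fun i : Fin n => (i : ℕ) < q).card = q := by
    rw [this, Finset.card_map, Finset.card_univ, Fintype.card_fin]
  refine Eq.trans ?_ h2
  apply congrArg Finset.card
  ext i
  simp

/-- values `1`, `-1` on `q` elements each, `0` on the others -/
theorem exists_thirds {α : Type} [Fintype α] (q : ℕ) (h : 2 * q ≤ Fintype.card α) :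
    ∃ g : α → ℤ, (∀ a, -1 ≤ g a ∧ g a ≤ 1) ∧ ∑ a, g a = 0 ∧ cnt (fun a => g a ≠ 0) = 2 * q := by
  classical
  obtain ⟨e⟩ : Nonempty (α ≃ Fin (Fintype.card α)) := ⟨Fintype.equivFin α⟩
  obtain ⟨n, hn⟩ : ∃ n, n = Fintype.card α := ⟨_, rfl⟩
  rw [← hn] at e h
  refine ⟨fun a => if (e a : ℕ) < q then 1 else if (e a : ℕ) < 2 * q then -1 else 0, ?_, ?_, ?_⟩
  · intro a
    simp only
    split_ifs <;> norm_num
  · have h1 : ∑ a, (if (e a : ℕ) < q then (1 : ℤ) else if (e a : ℕ) < 2 * q then -1 else 0) =
        ∑ i : Fin n, (if (i : ℕ) < q then (1 : ℤ) else if (i : ℕ) < 2 * q then -1 else 0) :=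
      Equiv.sum_comp e (fun i : Fin n => if (i : ℕ) < q then (1 : ℤ) else
        if (i : ℕ) < 2 * q then -1 else 0)
    have h2 : ∀ i : Fin n, (if (i : ℕ) < q then (1 : ℤ) else if (i : ℕ) < 2 * q then -1 else 0) =
        2 * (if (i : ℕ) < q then 1 else 0) - (if (i : ℕ) < 2 * q then 1 else 0) := by
      intro i
      split_ifs <;> first | omega | norm_num
    rw [h1, Finset.sum_congr rfl fun i _ => h2 i, Finset.sum_sub_distrib, ← Finset.mul_sum]
    rw [← cnt_eq_sum (fun i : Fin n => (i : ℕ) < q), ← cnt_eq_sum (fun i : Fin n => (i : ℕ) < 2 * q),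
      cnt_fin_lt n q (by omega), cnt_fin_lt n (2 * q) h]
    push_cast
    ring
  · have h3 : cnt (fun a => (if (e a : ℕ) < q then (1 : ℤ) else if (e a : ℕ) < 2 * q then -1
        else 0) ≠ 0) = cnt (fun i : Fin n => (i : ℕ) < 2 * q) := by
      apply le_antisymm
      · apply cnt_le_of_inj _ _ e
        · intro a ha
          by_contra hn'
          apply ha
          rw [if_neg (by omega), if_neg hn']
        · intro a b _ _ hab
          exact e.injective hab
      · apply cnt_le_of_inj _ _ e.symm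
        · intro i hi
          simp only [Equiv.apply_symm_apply]
          split_ifs <;> first | norm_num | omega
        · intro a b _ _ hab
          exact e.symm.injective hab
    rw [h3, cnt_fin_lt n (2 * q) h]

theorem bd_add (x y : V → V → ℤ) (v : V) : bd (fun u v => x u v + y u v) v = bd x v + bd y v := by
  unfold bd
  rw [← Finset.sum_add_distrib]

theorem abs_bd_le (G : SimpleGraph V) (x : V → V → ℤ) (hx : Lab G x) (v : V) :
    - (dg G v : ℤ) ≤ bd x v ∧ bd x v ≤ dg G v := by
  classical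
  unfold bd dg
  rw [cnt_eq_sum]
  constructor
  · rw [← Finset.sum_neg_distrib]
    apply Finset.sum_le_sum
    intro w _
    by_cases h : G.Adj v w
    · rw [if_pos h]
      exact (hx.rng v w).1
    · rw [if_neg h, hx.supp v w h]
      norm_num
  · apply Finset.sum_le_sum
    intro w _
    by_cases h : G.Adj v w
    · rw [if_pos h]
      exact (hx.rng v w).2
    · rw [if_neg h, hx.supp v w h]

/-- labels of the edges with an end outside `D`: `q` of them `1`, `q` of them `-1`. -/
theorem exists_outer (G : SimpleGraph V) (D : V → Prop) (hD : ∀ u v, G.Adj u v → D u ∨ D v)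
    (q : ℕ) (hq : 2 * q ≤ cnt fun p : V × V => G.Adj p.1 p.2 ∧ ¬ D p.1) :
    ∃ x : V → V → ℤ, Lab G x ∧ (∀ u v, D u → D v → x u v = 0) ∧ ∑ v, bd x v = 0 ∧
      sz x = 4 * q := by
  classical
  let α : Type := {p : V × V // G.Adj p.1 p.2 ∧ ¬ D p.1}
  have hcard : cnt (fun p : V × V => G.Adj p.1 p.2 ∧ ¬ D p.1) = Fintype.card α := cnt_eq_card _
  rw [hcard] at hq
  obtain ⟨g, hg1, hg2, hg3⟩ := exists_thirds q hq
  let y : V → V → ℤ := fun u v => if h : G.Adj u v ∧ ¬ D u then g ⟨(u, v), h⟩ else 0
  have hy0 : ∀ u v, ¬ (G.Adj u v ∧ ¬ D u) → y u v = 0 := by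
    intro u v h
    simp only [y, h, dite_false]
  have hyα : ∀ a : α, y a.1.1 a.1.2 = g a := by
    intro a
    simp only [y, a.2, not_false_eq_true, and_self, dite_true]
    rfl
  have hdis : ∀ u v, y u v ≠ 0 → y v u = 0 := by
    intro u v h
    apply hy0
    intro h'
    apply h
    apply hy0
    intro h''
    rcases hD u v h''.1 with h3 | h3
    · exact h''.2 h3
    · exact h'.2 h3
  have hyr : ∀ u v, -1 ≤ y u v ∧ y u v ≤ 1 := by
    intro u v
    by_cases h : G.Adj u v ∧ ¬ D u
    · have := hg1 ⟨(u, v), h⟩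
      rw [← hyα] at this
      exact this
    · rw [hy0 u v h]
      norm_num
  have hsum : ∑ u, ∑ v, y u v = 0 := by
    rw [← Finset.sum_product', Finset.univ_product_univ]
    have h1 : ∑ p : V × V, y p.1 p.2 =
        ∑ p ∈ univ.filter (fun p : V × V => G.Adj p.1 p.2 ∧ ¬ D p.1), y p.1 p.2 := by
      symm
      apply Finset.sum_subset (Finset.subset_univ _)
      intro p _ hp
      apply hy0
      intro h
      exact hp (Finset.mem_filter.2 ⟨Finset.mem_univ _, h⟩)
    rw [h1, ← hg2]
    have h2 : ∑ a : α, g a = ∑ a : α, y a.1.1 a.1.2 := Finset.sum_congr rfl fun a _ => (hyα a).symm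
    rw [h2]
    exact (Finset.sum_subtype (univ.filter fun p : V × V => G.Adj p.1 p.2 ∧ ¬ D p.1)
      (fun p => by simp) (fun p : V × V => y p.1 p.2))
  have hsz : sz y = 2 * q := by
    rw [← hg3]
    unfold sz
    apply le_antisymm
    · classical
      have : ∀ p : V × V, y p.1 p.2 ≠ 0 → G.Adj p.1 p.2 ∧ ¬ D p.1 := by
        intro p hp
        by_contra h
        exact hp (hy0 _ _ h)
      rcases isEmpty_or_nonempty α with hα | ⟨⟨a0⟩⟩
      · rw [cnt_false]
        · exact Nat.zero_le _
        · intro p hp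
          exact hα.false ⟨p, this p hp⟩
      · apply cnt_le_of_inj _ _ (fun p : V × V => if h : G.Adj p.1 p.2 ∧ ¬ D p.1 then
          (⟨p, h⟩ : α) else a0)
        · intro p hp
          have h := this p hp
          simp only [h, not_false_eq_true, and_self, dite_true]
          rw [← hyα]
          exact hp
        · intro p p' hp hp' he
          have h := this p hp
          have h' := this p' hp'
          rw [dif_pos h, dif_pos h'] at he
          exact congrArg Subtype.val he
    · apply cnt_le_of_inj _ _ (fun a : α => a.1)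
      · intro a ha
        rw [hyα]
        exact ha
      · intro a b _ _ h
        exact Subtype.ext h
  refine ⟨fun u v => y u v + y v u, ⟨?_, ?_, ?_⟩, ?_, ?_, ?_⟩
  · intro u v
    exact add_comm _ _
  · intro u v h
    rw [hy0 u v (fun h' => h h'.1), hy0 v u (fun h' => h h'.1.symm)]
    norm_num
  · intro u v
    by_cases h : y u v = 0
    · rw [h, zero_add]
      exact hyr v u
    · rw [hdis u v h, add_zero]
      exact hyr u v
  · intro u v hu hv
    change y u v + y v u = 0
    rw [hy0 u v (fun h' => h'.2 hu), hy0 v u (fun h' => h'.2 hv)]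
    norm_num
  · unfold bd
    simp only [Finset.sum_add_distrib]
    rw [hsum, Finset.sum_comm, hsum]
    norm_num
  · have h1 : sz (fun u v => y u v + y v u) = sz y + sz (fun u v => y v u) := by
      unfold sz
      rw [← cnt_or]
      · apply cnt_congr
        intro p
        change y p.1 p.2 + y p.2 p.1 ≠ 0 ↔ y p.1 p.2 ≠ 0 ∨ y p.2 p.1 ≠ 0
        by_cases h : y p.1 p.2 = 0
        · constructor
          · intro h'
            right
            intro h''
            apply h'
            rw [h, h'']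
            norm_num
          · rintro (h' | h')
            · exact absurd h h'
            · rw [h, zero_add]
              exact h'
        · constructor
          · intro _
            exact Or.inl h
          · intro _
            rw [hdis _ _ h, add_zero]
            exact h
      · intro p h h'
        exact h' (hdis _ _ h)
    have h2 : sz (fun u v => y v u) = sz y := by
      unfold sz
      apply le_antisymm
      · exact cnt_le_of_inj _ _ (fun p : V × V => (p.2, p.1)) (fun p hp => hp)
          (fun a b _ _ h => Prod.ext (Prod.mk.inj h).2 (Prod.mk.inj h).1)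
      · exact cnt_le_of_inj _ _ (fun p : V × V => (p.2, p.1)) (fun p hp => hp)
          (fun a b _ _ h => Prod.ext (Prod.mk.inj h).2 (Prod.mk.inj h).1)
    rw [h1, h2, hsz]
    ring

/-- the number of edges with an end outside `D` and the number of edges inside `D` -/
theorem e2_split (G : SimpleGraph V) (D : V → Prop) (hD : ∀ u v, G.Adj u v → D u ∨ D v)
    (U : Finset V) (hU : ∀ v, v ∈ U ↔ D v) :
    e2 G = e2 (res G U) + 2 * cnt fun p : V × V => G.Adj p.1 p.2 ∧ ¬ D p.1 := by
  classical
  have h1 : e2 G = e2 (res G U) + cnt fun p : V × V => G.Adj p.1 p.2 ∧ ¬ (D p.1 ∧ D p.2) := by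
    unfold e2
    rw [← cnt_or]
    · apply cnt_congr
      intro p
      constructor
      · intro h
        by_cases h' : D p.1 ∧ D p.2
        · exact Or.inl ⟨h, (hU _).2 h'.1, (hU _).2 h'.2⟩
        · exact Or.inr ⟨h, h'⟩
      · rintro (h | h)
        · exact h.1
        · exact h.1
    · intro p h h'
      exact h'.2 ⟨(hU _).1 h.2.1, (hU _).1 h.2.2⟩
  have h2 : (cnt fun p : V × V => G.Adj p.1 p.2 ∧ ¬ (D p.1 ∧ D p.2)) =
      (cnt fun p : V × V => G.Adj p.1 p.2 ∧ ¬ D p.1) +
        cnt fun p : V × V => G.Adj p.1 p.2 ∧ ¬ D p.2 := by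
    rw [← cnt_or]
    · apply cnt_congr
      intro p
      constructor
      · rintro ⟨h, h'⟩
        by_cases hd : D p.1
        · exact Or.inr ⟨h, fun h'' => h' ⟨hd, h''⟩⟩
        · exact Or.inl ⟨h, hd⟩
      · rintro (⟨h, h'⟩ | ⟨h, h'⟩)
        · exact ⟨h, fun h'' => h' h''.1⟩
        · exact ⟨h, fun h'' => h' h''.2⟩
    · intro p h h'
      rcases hD _ _ h.1 with h3 | h3
      · exact h.2 h3
      · exact h'.2 h3
  have h3 : (cnt fun p : V × V => G.Adj p.1 p.2 ∧ ¬ D p.2) =
      cnt fun p : V × V => G.Adj p.1 p.2 ∧ ¬ D p.1 := by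
    apply le_antisymm
    · exact cnt_le_of_inj _ _ (fun p : V × V => (p.2, p.1)) (fun p hp => ⟨hp.1.symm, hp.2⟩)
        (fun a b _ _ h => Prod.ext (Prod.mk.inj h).2 (Prod.mk.inj h).1)
    · exact cnt_le_of_inj _ _ (fun p : V × V => (p.2, p.1)) (fun p hp => ⟨hp.1.symm, hp.2⟩)
        (fun a b _ _ h => Prod.ext (Prod.mk.inj h).2 (Prod.mk.inj h).1)
  rw [h1, h2, h3]
  ring

end

theorem fny (h1 : IsyStmt) (h2 : ExaStmt) (h3 : NuzStmt) (h4 : Fn1Stmt) : FnyStmt := by
  intro V _ G D hdeg hD hgap
  classical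
  obtain ⟨U, hU⟩ : ∃ U : Finset V, ∀ v, v ∈ U ↔ D v := ⟨univ.filter D, fun v => by simp⟩
  obtain ⟨m, hm⟩ := e2_even G
  have hm' : e2 G = 2 * m := by omega
  obtain ⟨eL, heL⟩ : ∃ eL, eL = cnt fun p : V × V => G.Adj p.1 p.2 ∧ ¬ D p.1 := ⟨_, rfl⟩
  have hsplit := e2_split G D hD U hU
  rw [← heL] at hsplit
  obtain ⟨q, hq⟩ : ∃ q, q = (eL + 1) / 3 := ⟨_, rfl⟩
  obtain ⟨xL, hxL, hxLD, hxL0, hxLs⟩ := exists_outer G D hD q (by omega)
  -- the inner graph
  have hGdeg : ∀ v, dg (res G U) v = 0 ∨ 10000 ≤ dg (res G U) v := by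
    intro v
    by_cases hv : D v
    · right
      refine le_trans (hdeg v hv) ?_
      unfold dg
      exact cnt_le_of_inj _ _ id (fun w hw => ⟨hw.2, (hU v).2 hv, (hU w).2 hw.1⟩)
        (fun _ _ _ _ h => h)
    · left
      unfold dg
      apply cnt_false
      intro w hw
      exact hv ((hU v).1 hw.2.1)
  obtain ⟨x, hx⟩ := h1 V (res G U) (fun v => 2 * (dg G v : ℤ) + bd xL v) hGdeg
  -- properness of `xL + x + (anything with zero boundary)`
  have hlabadd : ∀ y : V → V → ℤ, Lab (res G U) y → Lab G (fun u v => xL u v + y u v) := by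
    intro y hy
    refine ⟨fun u v => by rw [hxL.symm u v, hy.symm u v], ?_, ?_⟩
    · intro u v huv
      change xL u v + y u v = 0
      rw [hxL.supp u v huv, hy.supp u v (fun h => huv h.1)]
      norm_num
    · intro u v
      change -1 ≤ xL u v + y u v ∧ xL u v + y u v ≤ 1
      by_cases h : D u ∧ D v
      · rw [hxLD u v h.1 h.2, zero_add]
        exact hy.rng u v
      · rw [hy.supp u v (fun h' => h ⟨(hU u).1 h'.2.1, (hU v).1 h'.2.2⟩), add_zero]
        exact hxL.rng u v
  have hprop : ∀ y : V → V → ℤ, Lab (res G U) y → (∀ v, bd y v = bd x v) → ∀ u v, G.Adj u v →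
      2 * (dg G u : ℤ) + bd (fun u v => xL u v + y u v) u ≠
        2 * (dg G v : ℤ) + bd (fun u v => xL u v + y u v) v := by
    intro y hy hyx
    have key : ∀ u v, G.Adj u v → ¬ D u → 2 * (dg G u : ℤ) + bd (fun u v => xL u v + y u v) u <
        2 * (dg G v : ℤ) + bd (fun u v => xL u v + y u v) v := by
      intro u v huv hu
      have h5 := (abs_bd_le G _ (hlabadd y hy) u).2
      have h6 := (abs_bd_le G _ (hlabadd y hy) v).1
      have h7 := hgap u v huv hu
      have h8 : (3 * dg G u : ℤ) < dg G v := by exact_mod_cast h7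
      linarith
    intro u v huv
    by_cases hu : D u
    · by_cases hv : D v
      · rw [bd_add, bd_add, hyx u, hyx v]
        have := hx.proper u v ⟨huv, (hU u).2 hu, (hU v).2 hv⟩
        intro h
        apply this
        linarith
      · exact (key v u huv.symm hv).ne'
    · exact (key u v huv hu).ne
  have hsz : ∀ y : V → V → ℤ, Lab (res G U) y →
      sz (fun u v => xL u v + y u v) = 4 * q + sz y := by
    intro y hy
    rw [← hxLs]
    unfold sz
    rw [← cnt_or]
    · apply cnt_congr
      intro p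
      change xL p.1 p.2 + y p.1 p.2 ≠ 0 ↔ xL p.1 p.2 ≠ 0 ∨ y p.1 p.2 ≠ 0
      by_cases h : D p.1 ∧ D p.2
      · rw [hxLD _ _ h.1 h.2, zero_add]
        constructor
        · intro h'
          exact Or.inr h'
        · rintro (h' | h')
          · exact absurd rfl h'
          · exact h'
      · rw [hy.supp _ _ (fun h' => h ⟨(hU _).1 h'.2.1, (hU _).1 h'.2.2⟩), add_zero]
        constructor
        · intro h'
          exact Or.inl h'
        · rintro (h' | h')
          · exact h'
          · exact absurd rfl h'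
    · intro p hp hp'
      by_cases h : D p.1 ∧ D p.2
      · exact hp (hxLD _ _ h.1 h.2)
      · exact hp' (hy.supp _ _ (fun h' => h ⟨(hU _).1 h'.2.1, (hU _).1 h'.2.2⟩))
  have htot : ∀ y : V → V → ℤ, (∀ v, bd y v = bd x v) →
      ∑ v, bd (fun u v => xL u v + y u v) v = 0 := by
    intro y hy
    simp only [bd_add, hy]
    rw [Finset.sum_add_distrib, hxL0, hx.tot]
    norm_num
  -- numbers
  obtain ⟨mD, hmD⟩ := e2_even (res G U)
  have hmD' : m = mD + eL := by omega
  obtain ⟨hsx, hev⟩ := sz_eq (res G U) x hx.lab hx.tot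
  obtain ⟨a, ha⟩ := hev
  have hz := e2_zer (res G U) x hx.lab
  obtain ⟨N0, hN0⟩ := e2_even (zer (res G U) x)
  have hfew := hx.few
  obtain ⟨z, hzdef⟩ : ∃ z, z = m - 2 * ((m + 1) / 3) := ⟨_, rfl⟩
  have hz1 : z + 2 * ((m + 1) / 3) = m := by omega
  rcases Nat.eq_zero_or_pos mD with hmD0 | hmDpos
  · -- no inner edges
    have hx0 : ∀ v, bd x v = bd x v := fun _ => rfl
    refine h4 V G _ m z (hlabadd x hx.lab) (hprop x hx.lab hx0) (htot x hx0) hm' ?_ hz1
    rw [hsz x hx.lab]
    omega
  -- sizes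
  have hdegU : ∀ v ∈ U, 10000 ≤ dg (res G U) v := by
    intro v hv
    refine le_trans (hdeg v ((hU v).1 hv)) ?_
    unfold dg
    exact cnt_le_of_inj _ _ id (fun w hw => ⟨hw.2, hv, (hU w).2 hw.1⟩) (fun _ _ _ _ h => h)
  have hsum : e2 (res G U) = ∑ v ∈ U, dg (res G U) v := by
    rw [e2_eq_sum]
    symm
    apply Finset.sum_subset (Finset.subset_univ _)
    intro v _ hv
    unfold dg
    apply cnt_false
    intro w hw
    exact hv hw.2.1
  have hUne : U.Nonempty := by
    rw [Finset.nonempty_iff_ne_empty]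
    intro h
    rw [h, Finset.sum_empty] at hsum
    rw [h] at hmD
    omega
  obtain ⟨v0, hv0⟩ := hUne
  have hn : 10001 ≤ U.card := by
    have h := hdegU v0 hv0
    have h' : dg (res G U) v0 + 1 ≤ U.card := by
      have : (univ.filter fun w => (res G U).Adj v0 w) ⊆ U.erase v0 := by
        intro w hw
        have hw' := (Finset.mem_filter.1 hw).2
        rw [Finset.mem_erase]
        exact ⟨hw'.1.ne', hw'.2.2⟩
      have hc := Finset.card_le_card this
      rw [Finset.card_erase_of_mem hv0] at hc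
      have hpos : 0 < U.card := Finset.card_pos.2 ⟨v0, hv0⟩
      unfold dg cnt
      omega
    omega
  have hmn : 10000 * U.card ≤ e2 (res G U) := by
    rw [hsum]
    have := Finset.card_nsmul_le_sum U (fun v => dg (res G U) v) 10000 hdegU
    simpa [mul_comm] using this
  obtain ⟨hnum1, hnum2⟩ := h3 U.card hn
  obtain ⟨L, hL⟩ : ∃ L, L = len U.card := ⟨_, rfl⟩
  rw [← hL] at hnum1 hnum2
  obtain ⟨W1, hW1⟩ : ∃ W1, W1 = 8 * L * (L + 1) ^ 2 * (2 * L + 1) := ⟨_, rfl⟩
  obtain ⟨W2, hW2⟩ : ∃ W2, W2 = L ^ 2 := ⟨_, rfl⟩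
  rw [← hW1] at hnum1
  rw [← hW2] at hnum2
  have hzge : eL ≤ z + 2 * q := by omega
  obtain ⟨zD, hzD⟩ : ∃ zD, z + 2 * q = zD + eL := ⟨z + 2 * q - eL, by omega⟩
  have hD0 : zD ≤ N0 := by omega
  obtain ⟨Dd, hDd⟩ : ∃ Dd, N0 = zD + Dd := ⟨N0 - zD, by omega⟩
  have hDeven : Even Dd := by
    rw [Nat.even_iff]
    omega
  obtain ⟨y, hy1, hy2, hy3⟩ := h2 V (zer (res G U) x) U Dd L (fun u v h => h.1.2.1) ⟨v0, hv0⟩ hL
    hDeven (by rw [← hW2]; omega) (by rw [← hW1]; omega)
  have hylab : Lab (res G U) (fun u v => x u v + y u v) := by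
    refine ⟨fun u v => by rw [hx.lab.symm u v, hy1.symm u v], ?_, ?_⟩
    · intro u v huv
      change x u v + y u v = 0
      rw [hx.lab.supp u v huv, hy1.supp u v (fun h => huv h.1)]
      norm_num
    · intro u v
      change -1 ≤ x u v + y u v ∧ x u v + y u v ≤ 1
      by_cases h : (zer (res G U) x).Adj u v
      · rw [h.2.1, zero_add]
        exact hy1.rng u v
      · rw [hy1.supp u v h, add_zero]
        exact hx.lab.rng u v
  have hybd : ∀ v, bd (fun u v => x u v + y u v) v = bd x v := by
    intro v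
    rw [bd_add, hy2 v, add_zero]
  refine h4 V G _ m z (hlabadd _ hylab) (hprop _ hylab hybd) (htot _ hybd) hm' ?_ hz1
  rw [hsz _ hylab, sz_add (res G U) x y hy1]
  omega

end Pool.Agent.MDG.H84
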