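import Pool.Agent.MDG.StmtsY
import Pool.Agent.Helper84_HEC.CONN

/-!
# GDY: good labellings of graphs of large minimum degree, with offsets
-/

set_option autoImplicit false

open Finset
open Pool.Agent.HEC Pool.Agent.HEC.H84

namespace Pool.Agent.MDG.H84

theorem gdy (h1 : Ns5Stmt) (h2 : MayStmt) (h3 : P17Stmt) (h4 : Re5Stmt) : GdyStmt := by
  intro V _ G off hG
  classical
  obtain ⟨N⟩ := h1 V G
  obtain ⟨c, b, x0, hc, hb, hb0, hx1, hx2, hx3, hx4⟩ := h2 V G N off hG
  obtain ⟨f, hf, hfp⟩ := h3 V N.S (fun v => off v + b v)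
  obtain ⟨x, hy1, hy2, hy3⟩ := h4 V G N b x0 f hx1 hx2 hx3 hx4 hf
  refine ⟨x, hy1, ?_, ?_, hy3⟩
  · intro u v huv
    rw [hy2 u, hy2 v]
    by_cases hS : N.S.Adj u v
    · intro h
      apply hfp u v hS
      linarith
    · intro h
      apply hc u v huv hS
      obtain ⟨j, hj⟩ := bd_parity N.S f hf u
      obtain ⟨j', hj'⟩ := bd_parity N.S f hf v
      obtain ⟨k, hk⟩ := hb u
      obtain ⟨k', hk'⟩ := hb v
      refine ⟨(k' + j') - (k + j), ?_⟩
      rw [hj, hj'] at h
      linarith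
  · simp only [hy2]
    rw [Finset.sum_add_distrib, ← Finset.mul_sum, sum_bd_anti f hf.anti, hb0]
    ring

end Pool.Agent.MDG.H84
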