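import Pool.Agent.MDG.StmtsY
import Pool.Agent.Helper9_MDG.ISO

set_option autoImplicit false

/-!
# ISY: isolated vertices, with offsets (copy of Helper9_MDG/ISO)
-/

namespace Pool.Agent.MDG.H84

open Finset Pool.Agent.HEC
open Pool.Agent.MDG.H9 (cnt_bij cnt_eq_zero)

/-- The proof of row ISY. -/
theorem isy (gdm : GdyStmt) : IsyStmt := by
  classical
  intro V _ G off hG
  let U : Finset V := univ.filter fun v => dg G v ≠ 0
  have hmem : ∀ u v, G.Adj u v → v ∈ U := by
    intro u v huv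
    refine Finset.mem_filter.2 ⟨Finset.mem_univ _, fun h => ?_⟩
    exact cnt_eq_zero _ h u huv.symm
  let S : Type := {v : V // v ∈ U}
  let G' : SimpleGraph S := G.comap Subtype.val
  have hadj : ∀ a b : S, G'.Adj a b ↔ G.Adj a.1 b.1 := fun a b => Iff.rfl
  have hdg : ∀ a : S, dg G' a = dg G a.1 := by
    intro a
    unfold dg
    apply cnt_bij _ _ Subtype.val (fun a b h => Subtype.ext h)
    · intro b
      exact Iff.rfl
    · intro b hb
      exact ⟨⟨b, hmem _ _ hb⟩, rfl⟩
  have hdeg : ∀ a : S, 10000 ≤ dg G' a := by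
    intro a
    rw [hdg]
    rcases hG a.1 with h | h
    · exact absurd h (Finset.mem_filter.1 a.2).2
    · exact h
  obtain ⟨x', hx'⟩ := gdm S G' (fun a => off a.1) hdeg
  let x : V → V → ℤ := fun u v => if h : u ∈ U ∧ v ∈ U then x' ⟨u, h.1⟩ ⟨v, h.2⟩ else 0
  have hxS : ∀ a b : S, x a.1 b.1 = x' a b := by
    intro a b
    simp only [x, a.2, b.2, and_self, dite_true]
    rfl
  have hx0 : ∀ u v, ¬ (u ∈ U ∧ v ∈ U) → x u v = 0 := by
    intro u v h
    simp only [x, h, dite_false]
  have hbdS : ∀ a : S, bd x a.1 = bd x' a := by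
    intro a
    unfold bd
    have h1 : ∑ w, x a.1 w = ∑ w ∈ U, x a.1 w := by
      symm
      apply Finset.sum_subset (Finset.subset_univ _)
      intro w _ hw
      exact hx0 _ _ fun h => hw h.2
    rw [h1, ← Finset.sum_coe_sort U (fun w => x a.1 w)]
    exact Finset.sum_congr rfl fun w _ => hxS a w
  have hbd0 : ∀ u, u ∉ U → bd x u = 0 := fun u hu =>
    Finset.sum_eq_zero fun v _ => hx0 u v fun h => hu h.1
  refine ⟨x, ⟨?_, ?_, ?_⟩, ?_, ?_, ?_⟩
  · intro u v
    by_cases h : u ∈ U ∧ v ∈ U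
    · have := hx'.lab.symm ⟨u, h.1⟩ ⟨v, h.2⟩
      rw [← hxS, ← hxS] at this
      exact this
    · rw [hx0 u v h, hx0 v u fun h' => h ⟨h'.2, h'.1⟩]
  · intro u v huv
    by_cases h : u ∈ U ∧ v ∈ U
    · have := hx'.lab.supp ⟨u, h.1⟩ ⟨v, h.2⟩ (fun hadj' => huv hadj')
      rw [← hxS] at this
      exact this
    · exact hx0 u v h
  · intro u v
    by_cases h : u ∈ U ∧ v ∈ U
    · have := hx'.lab.rng ⟨u, h.1⟩ ⟨v, h.2⟩
      rw [← hxS] at this
      exact this
    · rw [hx0 u v h]
      constructor <;> norm_num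
  · intro u v huv
    have hu := hmem v u huv.symm
    have hv := hmem u v huv
    have := hx'.proper ⟨u, hu⟩ ⟨v, hv⟩ huv
    rw [← hbdS, ← hbdS] at this
    exact this
  · have h1 : ∑ v, bd x v = ∑ v ∈ U, bd x v := by
      symm
      apply Finset.sum_subset (Finset.subset_univ _)
      intro w _ hw
      exact hbd0 w hw
    rw [h1, ← Finset.sum_coe_sort U (fun w => bd x w), ← hx'.tot]
    exact Finset.sum_congr rfl fun w _ => hbdS w
  · have h1 : sz x' = sz x := by
      unfold sz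
      apply cnt_bij _ _ (fun p : S × S => (p.1.1, p.2.1))
      · intro p q hpq
        rw [Prod.mk.injEq] at hpq
        exact Prod.ext (Subtype.ext hpq.1) (Subtype.ext hpq.2)
      · intro p
        simp only
        rw [hxS]
      · rintro ⟨u, v⟩ huv
        by_cases h : u ∈ U ∧ v ∈ U
        · exact ⟨(⟨u, h.1⟩, ⟨v, h.2⟩), rfl⟩
        · exact absurd (hx0 u v h) huv
    have h2 : e2 G' = e2 G := by
      unfold e2
      apply cnt_bij _ _ (fun p : S × S => (p.1.1, p.2.1))
      · intro p q hpq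
        rw [Prod.mk.injEq] at hpq
        exact Prod.ext (Subtype.ext hpq.1) (Subtype.ext hpq.2)
      · intro p
        exact Iff.rfl
      · rintro ⟨u, v⟩ huv
        exact ⟨(⟨u, hmem v u (SimpleGraph.Adj.symm huv)⟩, ⟨v, hmem u v huv⟩), rfl⟩
    rw [← h1, ← h2]
    exact hx'.few

end Pool.Agent.MDG.H84
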