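import Pool.Agent.MDG.Stmts
import Pool.Agent.Helper84_HEC.CONN

/-!
# MAI: residues and flow for a graph of large minimum degree
-/

set_option autoImplicit false

open Finset
open Pool.Agent.HEC Pool.Agent.HEC.H84

namespace Pool.Agent.MDG.H84

theorem mem_nde {V : Type} [Fintype V] (p : V → V) (w v : V) : v ∈ nde p w ↔ p v = w := by
  unfold nde
  simp

/-- splitting of a signed sum over a node -/
theorem sum_nde {V : Type} [Fintype V] (t : V → Bool) (p : V → V) (w : V) (r : V → ℤ)
    [DecidableEq V] :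
    ∑ v ∈ nde p w, sg (t v) * r v =
      (∑ v, if p v = w ∧ t v = true then r v else 0) -
        ∑ v, if p v = w ∧ t v = false then r v else 0 := by
  classical
  unfold nde
  rw [Finset.sum_filter, ← Finset.sum_sub_distrib]
  apply Finset.sum_congr rfl
  intro v _
  by_cases h : p v = w
  · rw [if_pos h]
    cases h' : t v <;> simp [sg, h]
  · rw [if_neg h, if_neg (fun h' => h h'.1), if_neg (fun h' => h h'.1)]
    ring

theorem mai (h1 : DecStmt) (h2 : CrxStmt) (h3 : Rs5Stmt) (h4 : SizStmt) (h5 : CrsStmt)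
    (h6 : BlfStmt) : MaiStmt := by
  intro V _ G N hG
  classical
  by_cases hV : Nonempty V
  swap
  · rw [not_nonempty_iff] at hV
    refine ⟨fun _ => 0, fun _ => 0, fun _ _ => 0, fun u => (hV.false u).elim,
      fun u => (hV.false u).elim, by simp, ⟨fun u => (hV.false u).elim, fun u => (hV.false u).elim,
      fun u => (hV.false u).elim⟩, fun u => (hV.false u).elim, fun u => (hV.false u).elim, ?_⟩
    simp
  obtain ⟨p, ord, hpp, hord, hblob, hlater⟩ := h1 V N.H 14000 (by norm_num)
  obtain ⟨hcross, hlow, hbig, hone⟩ := h5 V G N p ord hG hpp hord hblob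
    (fun w => by have := hlater w; norm_num at this ⊢; exact this)
  obtain ⟨ws, hws1, hws2⟩ := hlow hV
  obtain ⟨a, ha⟩ : ∃ a : V → ℤ, a = fun v => 2 * (dg G v : ℤ) + 17 * (dg N.S v : ℤ) := ⟨_, rfl⟩
  obtain ⟨xc, hxc1, hxc2, hxc3, hxc4⟩ := h2 V N.H N.t1 p ord 14000 34
    (fun w => ∑ v ∈ nde p w, sg (N.t1 v) * (N.c0 v - a v)) (fun _ _ h => h.2) hord (by norm_num)
    (by decide) hlater
  choose F hF1 hF2 using hxc4
  obtain ⟨low, hlowdef⟩ : ∃ low : V → Prop, low = fun w => p w = w ∧
    cut N.H (nde p w) < 112136 := ⟨_, rfl⟩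
  have hlow' : ∀ w, low w ↔ p w = w ∧ cut N.H (nde p w) < 112136 := by
    intro w
    rw [hlowdef]
  have hws : low ws := (hlow' ws).2 ⟨hws1, by omega⟩
  obtain ⟨T0, hT0⟩ : ∃ T0 : ℤ, T0 = ∑ v, if ¬ low (p v) ∧ N.t1 v = true then N.c0 v - a v
    else 0 := ⟨_, rfl⟩
  obtain ⟨τ, hτ⟩ : ∃ τ : V → ℤ, τ = fun w => if w = ws then
    - T0 - ∑ u ∈ univ.filter (fun u => low u ∧ u ≠ ws), F u else F w := ⟨_, rfl⟩
  obtain ⟨τ', hτ'⟩ : ∃ τ' : V → ℤ, τ' = fun w => if w = ws then τ ws - F ws else 0 := ⟨_, rfl⟩
  have hττ : ∀ w, τ w - τ' w = F w := by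
    intro w
    rw [hτ']
    by_cases h : w = ws
    · rw [h]
      simp
    · rw [hτ]
      simp [h]
  obtain ⟨c, hc1, hc2, hc3⟩ := h3 V G N p low a τ τ'
    (fun w hw => h4 V G N p w hG ((hlow' w).1 hw).1 ((hlow' w).1 hw).2)
  obtain ⟨r, hr⟩ : ∃ r : V → ℤ, r = fun v => c v - a v := ⟨_, rfl⟩
  have hrv : ∀ v, r v = c v - a v := fun v => by rw [hr]
  have hnetz : ∀ w, (34 : ℤ) ∣ ∑ v ∈ nde p w, sg (N.t1 v) * r v - F w := by
    intro w
    by_cases hw : p w = w
    · by_cases hl : cut N.H (nde p w) < 112136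
      · have hlw : low w := (hlow' w).2 ⟨hw, hl⟩
        obtain ⟨⟨k1, hk1⟩, ⟨k2, hk2⟩⟩ := hc3 w hlw
        rw [sum_nde]
        simp only [hrv]
        refine ⟨k1 - k2, ?_⟩
        have := hττ w
        linarith
      · have hnl : ¬ low w := fun h => hl ((hlow' w).1 h).2
        have h34 := hF2 w (by norm_num; omega)
        have heq : ∑ v ∈ nde p w, sg (N.t1 v) * r v =
            ∑ v ∈ nde p w, sg (N.t1 v) * (N.c0 v - a v) := by
          apply Finset.sum_congr rfl
          intro v hv
          rw [mem_nde] at hv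
          rw [hrv, hc2 v (by rw [hv]; exact hnl)]
        rw [heq]
        obtain ⟨k1, hk1⟩ := h34
        push_cast at hk1
        exact ⟨-k1, by linarith⟩
    · have hemp : nde p w = ∅ := by
        apply Finset.eq_empty_of_forall_notMem
        intro v hv
        rw [mem_nde] at hv
        apply hw
        rw [← hv]
        exact hpp v
      have hnet := hF1 w
      unfold net at hnet
      rw [hemp, Finset.sum_empty] at hnet
      have hF0 : F w = 0 := by exact_mod_cast hnet.symm
      rw [hemp, Finset.sum_empty, hF0]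
      norm_num
  have htrue : (34 : ℤ) ∣ ∑ v, (if N.t1 v = true then r v else 0) := by
    have hsplit : ∑ v, (if N.t1 v = true then r v else 0) =
        T0 + ∑ w ∈ univ.filter (fun w => low w), ∑ v, (if p v = w ∧ N.t1 v = true then
          c v - a v else 0) := by
      rw [hT0, Finset.sum_comm, ← Finset.sum_add_distrib]
      apply Finset.sum_congr rfl
      intro v _
      by_cases ht : N.t1 v = true
      · rw [if_pos ht]
        by_cases hl : low (p v)
        · rw [if_neg (fun h => h.1 hl), zero_add]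
          rw [Finset.sum_eq_single (p v)]
          · rw [if_pos ⟨rfl, ht⟩, hrv]
          · intro w _ hw
            rw [if_neg (fun h => hw h.1.symm)]
          · intro h
            exact absurd (Finset.mem_filter.2 ⟨Finset.mem_univ _, hl⟩) h
        · rw [if_pos ⟨hl, ht⟩, Finset.sum_eq_zero, add_zero, hrv, hc2 v hl]
          intro w hw
          rw [if_neg]
          rintro ⟨h, _⟩
          apply hl
          rw [h]
          exact (Finset.mem_filter.1 hw).2
      · rw [if_neg ht, if_neg (fun h => ht h.2), Finset.sum_eq_zero, add_zero]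
        intro w _
        rw [if_neg (fun h => ht h.2)]
    have hτsum : T0 + ∑ w ∈ univ.filter (fun w => low w), τ w = 0 := by
      have hmem : ws ∈ univ.filter (fun w => low w) := Finset.mem_filter.2 ⟨Finset.mem_univ _, hws⟩
      rw [← Finset.add_sum_erase _ _ hmem]
      have he : (univ.filter (fun w => low w)).erase ws =
          univ.filter (fun u => low u ∧ u ≠ ws) := by
        ext u
        simp only [Finset.mem_erase, Finset.mem_filter, Finset.mem_univ, true_and]
        exact and_comm
      rw [he]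
      have h1 : τ ws = - T0 - ∑ u ∈ univ.filter (fun u => low u ∧ u ≠ ws), F u := by
        rw [hτ]
        simp
      have h2 : ∑ u ∈ univ.filter (fun u => low u ∧ u ≠ ws), τ u =
          ∑ u ∈ univ.filter (fun u => low u ∧ u ≠ ws), F u := by
        apply Finset.sum_congr rfl
        intro u hu
        have hne := (Finset.mem_filter.1 hu).2.2
        rw [hτ]
        simp [hne]
      rw [h1, h2]
      ring
    have hd : (34 : ℤ) ∣ ∑ w ∈ univ.filter (fun w => low w),
        (∑ v, (if p v = w ∧ N.t1 v = true then c v - a v else 0) - τ w) := by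
      apply Finset.dvd_sum
      intro w hw
      exact (hc3 w (Finset.mem_filter.1 hw).2).1
    rw [Finset.sum_sub_distrib] at hd
    obtain ⟨k, hk⟩ := hd
    exact ⟨k, by rw [hsplit]; linarith⟩
  have he2 : 0 < e2 N.H := by
    have hcard : (nde p ws).card ≠ 1 := by
      intro h
      have := hone ws h
      omega
    have hmem : ws ∈ nde p ws := (mem_nde p ws ws).2 hws1
    have hpos : 0 < (nde p ws).card := Finset.card_pos.2 ⟨ws, hmem⟩
    have h := hbig ws (by omega)
    have hle : e2 (res N.H (nde p ws)) ≤ e2 N.H := by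
      unfold e2
      exact cnt_le_of_inj _ _ (fun q => q) (fun q hq => hq.1) (fun _ _ _ _ h => h)
    omega
  obtain ⟨b, x, hb1, hb2, hx1, hx2, hx3, hx4⟩ := h6 V N.H N.t1 p xc r (fun _ _ h => h.2) hpp he2
    hblob hcross hbig hxc1 hxc2 hxc3 (by
      intro w
      obtain ⟨k, hk⟩ := hnetz w
      refine ⟨k, ?_⟩
      rw [hF1 w]
      have : ((∑ v ∈ nde p w, sg (N.t1 v) * r v - F w : ℤ) : ℝ) = ((34 * k : ℤ) : ℝ) := by
        rw [hk]
      push_cast at this
      exact this) htrue
  refine ⟨c, b, x, hc1, ?_, hb2, hx1, hx2, hx3, hx4⟩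
  intro v
  have := hb1 v
  rw [hrv, ha] at this
  exact this

end Pool.Agent.MDG.H84
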