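import Pool.Agent.Helper84_HEC.ALL
import Pool.Agent.Helper27_MDG.NS5
import Pool.Agent.Helper15_MDG.CP5
import Pool.Agent.Helper77_MDG.CN5
import Pool.Agent.Helper2_MDG.BRY
import Pool.Agent.Helper88_MDG.RE5
import Pool.Agent.Helper81_MDG.P17
import Pool.Agent.Helper14_MDG.ORD
import Pool.Agent.Helper60_MDG.DEG
import Pool.Agent.Helper59_MDG.BLO
import Pool.Agent.Helper70_MDG.BRG
import Pool.Agent.Helper42_MDG.TUT
import Pool.Agent.Helper95_MDG.ESJ
import Pool.Agent.Helper81_MDG.CTL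
import Pool.Agent.Helper89_MDG.CRX
import Pool.Agent.Helper81_MDG.CSR
import Pool.Agent.Helper19_MDG.TUN
import Pool.Agent.Helper46_MDG.RS5
import Pool.Agent.Helper97_MDG.TRC
import Pool.Agent.Helper21_MDG.THS
import Pool.Agent.Helper26_MDG.TWS
import Pool.Agent.Helper66_MDG.T2S
import Pool.Agent.Helper92_MDG.BLS
import Pool.Agent.Helper62_MDG.DGT
import Pool.Agent.Helper1_MDG.DEZ
import Pool.Agent.Helper99_MDG.BRN
import Pool.Agent.Helper95_MDG.XCS
import Pool.Agent.Helper19_MDG.SIS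
import Pool.Agent.Helper69_MDG.CRT
import Pool.Agent.Helper87_MDG.BFS
import Pool.Agent.Helper72_MDG.NUZ
import Pool.Agent.Helper84_MDG.MAY
import Pool.Agent.Helper84_MDG.GDY
import Pool.Agent.Helper84_MDG.ISY
import Pool.Agent.Helper84_MDG.FNY
import Pool.Agent.Helper84_MDG.DEGR

/-!
# Assembly of the rows of squad MDG, blocks Z and Y
-/

namespace Pool.Agent.MDG.H84

theorem all_y : FnyStmt := by
  have cp5 : Cp5Stmt := H15.cp5
  have bry : BryStmt := H2.bry
  have flo : Pool.Agent.HEC.FloStmt := Pool.Agent.HEC.H33.flo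
  have re5 : Re5Stmt := H88.re5 cp5 H77.cn5 flo Pool.Agent.HEC.H65.rnd Pool.Agent.HEC.H7.sgn bry
  have dez : DezStmt := H1.dez H59.blo H60.deg H62.dgt H14.ord
  have crx : CrxStmt := H89.crx (H70.brg flo bry) H42.tut H95.esj H81.ctl
  have ths : ThsStmt := H21.ths Pool.Agent.HEC.H84.all_min H81.csr H97.trc
  have bfs : BfsStmt := H87Z.bfs (H92.bls (H66.t2s (H26.tws ths))) H19.tun
  have may : MayStmt := H84.may dez crx H46.rs5 (H19.S.sis cp5) (H69.crt cp5) (H95.xcs H99.brn) bfs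
  have gdy : GdyStmt := H84.gdy (H27.ns5 Pool.Agent.HEC.H84.all_mct) may H81.p17 re5
  exact H84.fny (H84.isy gdy) Pool.Agent.HEC.H84.all_exa H72.nuz Pool.Agent.HEC.H55.fn1

end Pool.Agent.MDG.H84
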