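import Pool.Agent.MDG.Stmts
import Pool.Agent.Helper84_HEC.FIN

/-!
# FN5: the theorem (copy of Helper84_HEC/FIN with another hypothesis)
-/

set_option autoImplicit false

open Finset
open Pool.Agent.HEC Pool.Agent.HEC.H84
open Pool.Agent.Helper51_Equitable (IsEquitableProper)

namespace Pool.Agent.MDG.H84

theorem fn5 (h1 : IsoStmt) (h2 : ExaStmt) (h3 : NumStmt) (h4 : Fn1Stmt) : Fn5Stmt := by
  intro V _ G hG
  classical
  obtain ⟨x, hx⟩ := h1 V G hG
  obtain ⟨m, hm⟩ := e2_even G
  have hm' : e2 G = 2 * m := by omega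
  obtain ⟨hsz, hev⟩ := sz_eq G x hx.lab hx.tot
  obtain ⟨a, ha⟩ := hev
  have hz := e2_zer G x hx.lab
  obtain ⟨N0, hN0⟩ := e2_even (zer G x)
  have hfew := hx.few
  rcases Nat.eq_zero_or_pos m with hm0 | hmpos
  · refine h4 V G x m 0 hx.lab hx.proper hx.tot hm' ?_ ?_
    · omega
    · omega
  set U : Finset V := univ.filter fun v => 0 < dg G v with hU
  have hdeg : ∀ v ∈ U, 20000 ≤ dg G v := by
    intro v hv
    have hv' := (Finset.mem_filter.1 hv).2
    rcases hG v with h | h
    · omega
    · omega
  have hadj : ∀ u v, G.Adj u v → u ∈ U := by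
    intro u v huv
    rw [hU, Finset.mem_filter]
    refine ⟨Finset.mem_univ u, ?_⟩
    unfold dg cnt
    exact Finset.card_pos.2 ⟨v, by simpa using huv⟩
  have hsum : e2 G = ∑ v ∈ U, dg G v := by
    rw [e2_eq_sum, hU, Finset.sum_filter]
    apply Finset.sum_congr rfl
    intro v _
    split_ifs with h
    · rfl
    · omega
  have hUne : U.Nonempty := by
    rw [Finset.nonempty_iff_ne_empty]
    intro h
    rw [h, Finset.sum_empty] at hsum
    omega
  obtain ⟨v0, hv0⟩ := hUne
  have hn : 20001 ≤ U.card := by
    have h := hdeg v0 hv0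
    have h' : dg G v0 + 1 ≤ U.card := by
      have : (univ.filter fun w => G.Adj v0 w) ⊆ U.erase v0 := by
        intro w hw
        have hw' := (Finset.mem_filter.1 hw).2
        rw [Finset.mem_erase]
        exact ⟨hw'.ne', hadj w v0 hw'.symm⟩
      have hc := Finset.card_le_card this
      rw [Finset.card_erase_of_mem hv0] at hc
      have hpos : 0 < U.card := Finset.card_pos.2 ⟨v0, hv0⟩
      unfold dg cnt
      omega
    omega
  have hmn : 20000 * U.card ≤ e2 G := by
    rw [hsum]
    have := Finset.card_nsmul_le_sum U (fun v => dg G v) 20000 hdeg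
    simpa [mul_comm] using this
  obtain ⟨hnum1, hnum2⟩ := h3 U.card hn
  set L := len U.card with hL
  set z := m - 2 * ((m + 1) / 3) with hzdef
  have hz1 : z + 2 * ((m + 1) / 3) = m := by omega
  have hD0 : z ≤ N0 := by omega
  obtain ⟨D, hD⟩ : ∃ D, N0 = z + D := ⟨N0 - z, by omega⟩
  have hDeven : Even D := by
    rw [Nat.even_iff]
    omega
  obtain ⟨y, hy1, hy2, hy3⟩ := h2 V (zer G x) U D L (fun u v h => hadj u v h.1) ⟨v0, hv0⟩ hL hDeven
    (by omega) (by omega)
  refine h4 V G (fun u v => x u v + y u v) m z ?_ ?_ ?_ hm' ?_ hz1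
  · refine ⟨fun u v => by rw [hx.lab.symm u v, hy1.symm u v], ?_, ?_⟩
    · intro u v huv
      rw [hx.lab.supp u v huv, hy1.supp u v (fun h => huv h.1)]
      norm_num
    · intro u v
      by_cases h : (zer G x).Adj u v
      · rw [h.2.1]
        have := hy1.rng u v
        constructor <;> linarith [this.1, this.2]
      · rw [hy1.supp u v h]
        have := hx.lab.rng u v
        constructor <;> linarith [this.1, this.2]
  · intro u v huv
    have hb : ∀ w, bd (fun u v => x u v + y u v) w = bd x w := by
      intro w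
      have : bd (fun u v => x u v + y u v) w = bd x w + bd y w := by
        unfold bd
        rw [← Finset.sum_add_distrib]
      rw [this, hy2 w, add_zero]
    rw [hb u, hb v]
    exact hx.proper u v huv
  · have hb : ∀ w, bd (fun u v => x u v + y u v) w = bd x w := by
      intro w
      have : bd (fun u v => x u v + y u v) w = bd x w + bd y w := by
        unfold bd
        rw [← Finset.sum_add_distrib]
      rw [this, hy2 w, add_zero]
    rw [Finset.sum_congr rfl fun w _ => hb w]
    exact hx.tot
  · rw [sz_add G x y hy1]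
    omega

end Pool.Agent.MDG.H84
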